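import Mathlib

set_option autoImplicit false

/-!
R-trees on hypercubes have no worst-case bound `O((N/B)^(1-1/d))` for aggregation queries: there
are sets of `N` hypercubes and a query on which every R-tree visits at least `N / (c₂ B)` nodes.
-/

namespace Pool.Agent.Results.MP_4b5396_lc.AggregationLowerBound

open scoped Classical

/-- Rooted trees in which all leaves are at the same depth `h`; the leaves hold sets of objects. -/
inductive RTree (O : Type) : ℕ → Type
  | leaf (F : Finset O) : RTree O 0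
  | node {h : ℕ} (n : ℕ) (child : Fin n → RTree O h) : RTree O (h + 1)

namespace RTree

variable {O : Type}

/-- How many times the object `o` is stored in the leaves. -/
noncomputable def stored (o : O) : {h : ℕ} → RTree O h → ℕ
  | _, .leaf F => if o ∈ F then 1 else 0
  | _, .node _ child => ∑ i, stored o (child i)

/-- The objects stored in the leaves of the tree. -/
def objects {h : ℕ} (t : RTree O h) : Set O := {o | 0 < stored o t}

/-- The size conditions, for block size `B` and constants `c₁, c₂`: leaves hold between `c₁ B` and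
`c₂ B` objects, internal nodes have at most `c₂ B` and, except possibly the root, at least `c₁ B`
children. -/
def Sizes (c₁ c₂ : ℝ) (B : ℕ) : (isRoot : Bool) → {h : ℕ} → RTree O h → Prop
  | _, _, .leaf F => c₁ * B ≤ F.card ∧ F.card ≤ c₂ * B
  | isRoot, _, .node n child => (isRoot = false → c₁ * B ≤ n) ∧ n ≤ c₂ * B ∧
      ∀ i, Sizes c₁ c₂ B false (child i)

end RTree

variable {d : ℕ}

/-- Closed axis-parallel boxes in `ℝ^d`. -/
def IsBox (X : Set (Fin d → ℝ)) : Prop := ∃ a b : Fin d → ℝ, a ≤ b ∧ X = Set.Icc a b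

/-- Closed axis-parallel hypercubes in `ℝ^d`. -/
def IsHypercube (X : Set (Fin d → ℝ)) : Prop :=
  ∃ (a : Fin d → ℝ) (s : ℝ), 0 ≤ s ∧ X = Set.Icc a (fun i => a i + s)

/-- The minimal axis-parallel bounding box of a set: the intersection of all closed boxes that
contain it. -/
def boundingBox (U : Set (Fin d → ℝ)) : Set (Fin d → ℝ) :=
  ⋂₀ {X | (∃ a b : Fin d → ℝ, X = Set.Icc a b) ∧ U ⊆ X}

/-- `R(v)`: the bounding box of the objects in the subtree of `v`. -/
def R {h : ℕ} (v : RTree (Set (Fin d → ℝ)) h) : Set (Fin d → ℝ) := boundingBox (⋃₀ v.objects)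

/-- The number of nodes visited in the subtree of a visited node, for the query `Q`: a child `v`
with `R(v) ∩ Q = ∅` is ignored, a child with `R(v) ⊆ Q` is not entered, every other child is
visited recursively. -/
noncomputable def cost (Q : Set (Fin d → ℝ)) : {h : ℕ} → RTree (Set (Fin d → ℝ)) h → ℕ
  | _, .leaf _ => 1
  | _, .node _ child => 1 + ∑ i, if R (child i) ∩ Q = ∅ ∨ R (child i) ⊆ Q then 0
      else cost Q (child i)

/-- `t` is an R-tree on the set `S` of objects, for block size `B` and constants `c₁, c₂`. -/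
def IsRTree {O : Type} (c₁ c₂ : ℝ) (B : ℕ) (S : Finset O) {h : ℕ} (t : RTree O h) : Prop :=
  RTree.Sizes c₁ c₂ B true t ∧ (∀ o ∈ S, t.stored o = 1) ∧ (∀ o ∉ S, t.stored o = 0)

/-! ### The lower bound -/

/-- The number of slots used in the leaves. -/
def total {O : Type} : {h : ℕ} → RTree O h → ℕ
  | _, .leaf F => F.card
  | _, .node _ child => ∑ i, total (child i)

theorem sum_stored_le {O : Type} (S : Finset O) {h : ℕ} (t : RTree O h) :
    ∑ o ∈ S, t.stored o ≤ total t := by
  induction t with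
  | leaf F =>
    show ∑ o ∈ S, (if o ∈ F then 1 else 0) ≤ F.card
    rw [Finset.sum_ite_mem, Finset.sum_const, smul_eq_mul, mul_one]
    exact Finset.card_le_card Finset.inter_subset_right
  | node n child ih =>
    show ∑ o ∈ S, ∑ i, (child i).stored o ≤ ∑ i, total (child i)
    rw [Finset.sum_comm]
    exact Finset.sum_le_sum fun i _ => ih i

theorem total_eq_zero {O : Type} {h : ℕ} (t : RTree O h) (ht : t.objects = ∅) : total t = 0 := by
  induction t with
  | leaf F =>
    show F.card = 0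
    rw [Finset.card_eq_zero, Finset.eq_empty_iff_forall_notMem]
    intro o ho
    have : o ∈ (RTree.leaf F).objects := by
      show 0 < (if o ∈ F then 1 else 0)
      rw [if_pos ho]
      exact one_pos
    rw [ht] at this
    exact this
  | node n child ih =>
    show ∑ i, total (child i) = 0
    apply Finset.sum_eq_zero
    intro i _
    apply ih
    rw [Set.eq_empty_iff_forall_notMem] at ht ⊢
    intro o ho
    apply ht o
    show 0 < ∑ i, (child i).stored o
    exact lt_of_lt_of_le ho (Finset.single_le_sum (f := fun i => (child i).stored o)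
      (fun _ _ => Nat.zero_le _) (Finset.mem_univ i))

theorem subset_boundingBox (U : Set (Fin d → ℝ)) : U ⊆ boundingBox U :=
  fun _ hp _ hX => hX.2 hp

/-- If every object properly contains the nonempty set `Q`, then every node with objects is
visited. -/
theorem total_le_cost {c₁ c₂ : ℝ} {B : ℕ} (Q : Set (Fin d → ℝ)) (hQ : Q.Nonempty) {h : ℕ}
    (t : RTree (Set (Fin d → ℝ)) h) (b : Bool) (hs : RTree.Sizes c₁ c₂ B b t)
    (ht : ∀ X ∈ t.objects, Q ⊂ X) : (total t : ℝ) ≤ c₂ * B * cost Q t := by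
  induction t generalizing b with
  | leaf F =>
    show (F.card : ℝ) ≤ c₂ * B * (1 : ℕ)
    rw [Nat.cast_one, mul_one]
    exact hs.2
  | node n child ih =>
    have hobj : ∀ i, ∀ X ∈ (child i).objects, Q ⊂ X := by
      intro i X hX
      apply ht
      show 0 < ∑ i, (child i).stored X
      exact lt_of_lt_of_le hX (Finset.single_le_sum (f := fun i => (child i).stored X)
        (fun _ _ => Nat.zero_le _) (Finset.mem_univ i))
    have hB : 0 ≤ c₂ * B := le_trans (Nat.cast_nonneg n) hs.2.1
    have key : ∀ i, (total (child i) : ℝ) ≤ c₂ * B * ((if R (child i) ∩ Q = ∅ ∨ R (child i) ⊆ Q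
        then 0 else cost Q (child i) : ℕ) : ℝ) := by
      intro i
      split_ifs with hi
      · rw [Nat.cast_zero, mul_zero]
        by_cases he : (child i).objects = ∅
        · rw [total_eq_zero _ he, Nat.cast_zero]
        · exfalso
          obtain ⟨X, hX⟩ := Set.nonempty_iff_ne_empty.2 he
          have h1 : X ⊆ R (child i) :=
            (Set.subset_sUnion_of_mem hX).trans (subset_boundingBox _)
          have h2 := hobj i X hX
          rcases hi with hi | hi
          · obtain ⟨q, hq⟩ := hQ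
            have : q ∈ R (child i) ∩ Q := ⟨h1 (h2.1 hq), hq⟩
            rw [hi] at this
            exact this
          · exact h2.2 (h1.trans hi)
      · exact ih i false (hs.2.2 i) (hobj i)
    have h3 : (total (RTree.node n child) : ℝ) = ∑ i, (total (child i) : ℝ) := by
      show ((∑ i, total (child i) : ℕ) : ℝ) = _
      push_cast
      rfl
    have h4 : (cost Q (RTree.node n child) : ℝ) = 1 + ∑ i, ((if R (child i) ∩ Q = ∅ ∨
        R (child i) ⊆ Q then 0 else cost Q (child i) : ℕ) : ℝ) := by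
      show ((1 + ∑ i, (if R (child i) ∩ Q = ∅ ∨ R (child i) ⊆ Q then 0
        else cost Q (child i)) : ℕ) : ℝ) = _
      rw [Nat.cast_add, Nat.cast_one, Nat.cast_sum]
    rw [h3, h4, mul_add, mul_one, Finset.mul_sum]
    have h5 := Finset.sum_le_sum (fun i (_ : i ∈ Finset.univ) => key i)
    linarith

/-- The nested hypercubes `[-(k+1), k+1]^d`. -/
def cube (d : ℕ) (k : ℕ) : Set (Fin d → ℝ) :=
  Set.Icc (fun _ => -((k : ℝ) + 1)) (fun _ => (k : ℝ) + 1)

theorem cube_injective (hd : 1 ≤ d) : Function.Injective (cube d) := by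
  have key : ∀ j k : ℕ, cube d j ⊆ cube d k → j ≤ k := by
    intro j k h
    have h1 : (fun _ => (j : ℝ) + 1 : Fin d → ℝ) ∈ cube d j := by
      refine ⟨fun i => ?_, fun i => le_rfl⟩
      show -((j : ℝ) + 1) ≤ (j : ℝ) + 1
      have : (0 : ℝ) ≤ j := Nat.cast_nonneg j
      linarith
    have h2 := (h h1).2 ⟨0, hd⟩
    change (j : ℝ) + 1 ≤ (k : ℝ) + 1 at h2
    have h3 : (j : ℝ) ≤ k := by linarith
    exact_mod_cast h3
  intro j k h
  exact le_antisymm (key _ _ h.le) (key _ _ h.ge)

theorem lower_bound (hd : 1 ≤ d) (N : ℕ) :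
    ∃ S : Finset (Set (Fin d → ℝ)), S.card = N ∧ (∀ X ∈ S, IsHypercube X) ∧
      ∃ Q : Set (Fin d → ℝ), IsBox Q ∧ ∀ (c₁ c₂ : ℝ) (B : ℕ) (h : ℕ)
        (t : RTree (Set (Fin d → ℝ)) h), IsRTree c₁ c₂ B S t → (N : ℝ) ≤ c₂ * B * cost Q t := by
  refine ⟨(Finset.range N).map ⟨cube d, cube_injective hd⟩, by simp, ?_,
    Set.Icc (fun _ => 0) (fun _ => 0), ⟨_, _, le_rfl, rfl⟩, ?_⟩
  · intro X hX
    rw [Finset.mem_map] at hX
    obtain ⟨k, -, rfl⟩ := hX
    refine ⟨fun _ => -((k : ℝ) + 1), 2 * ((k : ℝ) + 1), by positivity, ?_⟩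
    show Set.Icc _ _ = _
    congr 1
    funext i
    ring
  · intro c₁ c₂ B h t ⟨hs, h1, h2⟩
    have h3 : (N : ℝ) ≤ total t := by
      have h4 := sum_stored_le ((Finset.range N).map ⟨cube d, cube_injective hd⟩) t
      rw [Finset.sum_congr rfl (fun o ho => h1 o ho)] at h4
      simp only [Finset.sum_const, Finset.card_map, Finset.card_range, smul_eq_mul, mul_one] at h4
      exact_mod_cast h4
    have hne : (Set.Icc (fun _ => 0) (fun _ => 0) : Set (Fin d → ℝ)).Nonempty :=
      ⟨fun _ => 0, le_rfl, le_rfl⟩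
    refine h3.trans (total_le_cost _ hne t true hs ?_)
    intro X hX
    have hX' : X ∈ (Finset.range N).map ⟨cube d, cube_injective hd⟩ := by
      by_contra h5
      have h6 := h2 X h5
      change 0 < t.stored X at hX
      omega
    rw [Finset.mem_map] at hX'
    obtain ⟨k, -, rfl⟩ := hX'
    have hk : (0 : ℝ) ≤ k := Nat.cast_nonneg k
    constructor
    · rintro p ⟨hp1, hp2⟩
      refine ⟨fun i => ?_, fun i => ?_⟩
      · have := hp1 i
        change (0 : ℝ) ≤ p i at this
        show -((k : ℝ) + 1) ≤ p i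
        linarith
      · have := hp2 i
        change p i ≤ (0 : ℝ) at this
        show p i ≤ (k : ℝ) + 1
        linarith
    · intro hsub
      have h7 : (fun _ => (k : ℝ) + 1 : Fin d → ℝ) ∈ cube d k := by
        refine ⟨fun i => ?_, fun i => le_rfl⟩
        show -((k : ℝ) + 1) ≤ (k : ℝ) + 1
        linarith
      have h8 := (hsub h7).2 ⟨0, hd⟩
      change (k : ℝ) + 1 ≤ 0 at h8
      linarith

/-! ### Existence of R-trees -/

/-- The tree with fan-out `B` and height `h` that stores `f`. -/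
noncomputable def perfect {O : Type} (B : ℕ) : (h : ℕ) → (Fin (B ^ (h + 1)) → O) → RTree O h
  | 0, f => .leaf (Finset.univ.image f)
  | h + 1, f => .node B fun i => perfect B h fun j =>
      f (Fin.cast (pow_succ' B (h + 1)).symm (finProdFinEquiv (i, j)))

theorem perfect_spec {O : Type} (c₁ c₂ : ℝ) (hc₁ : c₁ ≤ 1) (hc₂ : 1 ≤ c₂) (B : ℕ) (h : ℕ)
    (f : Fin (B ^ (h + 1)) → O) (hf : Function.Injective f) :
    (∀ b, RTree.Sizes c₁ c₂ B b (perfect B h f)) ∧
      ∀ o, (perfect B h f).stored o = if o ∈ Set.range f then 1 else 0 := by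
  have hB0 : (0 : ℝ) ≤ B := Nat.cast_nonneg B
  have hB1 : c₁ * B ≤ B := by nlinarith
  have hB2 : (B : ℝ) ≤ c₂ * B := by nlinarith
  induction h with
  | zero =>
    have hcard : (Finset.univ.image f).card = B := by
      rw [Finset.card_image_of_injective _ hf, Finset.card_univ, Fintype.card_fin]
      simp
    constructor
    · intro b
      show c₁ * B ≤ ((Finset.univ.image f).card : ℝ) ∧ ((Finset.univ.image f).card : ℝ) ≤ c₂ * B
      rw [hcard]
      exact ⟨hB1, hB2⟩
    · intro o
      show (if o ∈ Finset.univ.image f then 1 else 0) = _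
      simp
  | succ h ih =>
    have hinj : ∀ i : Fin B, Function.Injective fun j : Fin (B ^ (h + 1)) =>
        f (Fin.cast (pow_succ' B (h + 1)).symm (finProdFinEquiv (i, j))) := by
      intro i j j' hjj
      have h1 := hf hjj
      have h2 := finProdFinEquiv.injective (Fin.cast_injective _ h1)
      exact (Prod.mk.inj h2).2
    constructor
    · intro b
      exact ⟨fun _ => hB1, hB2, fun i => (ih _ (hinj i)).1 false⟩
    · intro o
      show (∑ i : Fin B, (perfect B h fun j =>
        f (Fin.cast (pow_succ' B (h + 1)).symm (finProdFinEquiv (i, j)))).stored o) = _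
      rw [Finset.sum_congr rfl (fun i _ => (ih _ (hinj i)).2 o)]
      by_cases ho : o ∈ Set.range f
      · rw [if_pos ho]
        obtain ⟨x, rfl⟩ := ho
        obtain ⟨⟨i₀, j₀⟩, hij⟩ := finProdFinEquiv.surjective (Fin.cast (pow_succ' B (h + 1)) x)
        have hx : x = Fin.cast (pow_succ' B (h + 1)).symm (finProdFinEquiv (i₀, j₀)) := by
          rw [hij]
          rfl
        rw [Finset.sum_eq_single i₀]
        · rw [if_pos ⟨j₀, (congrArg f hx).symm⟩]
        · intro i _ hi
          rw [if_neg]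
          rintro ⟨j, hj⟩
          have h1 := hf hj
          rw [hx] at h1
          have h2 := finProdFinEquiv.injective (Fin.cast_injective _ h1)
          exact hi (Prod.mk.inj h2).1
        · intro h1
          exact absurd (Finset.mem_univ _) h1
      · rw [if_neg ho]
        apply Finset.sum_eq_zero
        intro i _
        rw [if_neg]
        rintro ⟨j, hj⟩
        exact ho ⟨_, hj⟩

theorem exists_rtree {O : Type} (c₁ c₂ : ℝ) (hc₁ : c₁ ≤ 1) (hc₂ : 1 ≤ c₂) (B h : ℕ)
    (S : Finset O) (hS : S.card = B ^ (h + 1)) : ∃ t : RTree O h, IsRTree c₁ c₂ B S t := by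
  let e := S.equivFinOfCardEq hS
  let f : Fin (B ^ (h + 1)) → O := fun i => (e.symm i : O)
  have hf : Function.Injective f := Subtype.val_injective.comp e.symm.injective
  have hr : ∀ o, o ∈ Set.range f ↔ o ∈ S := by
    intro o
    constructor
    · rintro ⟨i, rfl⟩
      exact (e.symm i).2
    · intro ho
      exact ⟨e ⟨o, ho⟩, by simp [f]⟩
  obtain ⟨h1, h2⟩ := perfect_spec c₁ c₂ hc₁ hc₂ B h f hf
  refine ⟨perfect B h f, h1 true, ?_, ?_⟩
  · intro o ho
    rw [h2, if_pos ((hr o).2 ho)]
  · intro o ho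
    rw [h2, if_neg (fun h3 => ho ((hr o).1 h3))]

/-- **Lower bound for aggregation queries.**  Let `d ≥ 1` and let `c₁, c₂ > 0` be the constants
hidden in the `Θ(B)` of the definition of an R-tree.

(1) For every constant `C ≥ 0`, every `B ≥ 1` and every `N > (C c₂)^d B` there are a set `S` of
`N` hypercubes in `ℝ^d` and a query box `Q` such that every R-tree on `S` visits more than
`C (N/B)^(1-1/d)` nodes for `Q`; it visits at least `N / (c₂ B)` nodes.

(2) R-trees do exist: if `c₁ ≤ 1 ≤ c₂`, on every set of `B^(h+1)` objects. -/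
theorem result (d : ℕ) (hd : 1 ≤ d) (c₁ c₂ : ℝ) (hc₂ : 0 < c₂) :
    (∀ C : ℝ, 0 ≤ C → ∀ B N : ℕ, 1 ≤ B → (C * c₂) ^ d * B < N →
      ∃ S : Finset (Set (Fin d → ℝ)), S.card = N ∧ (∀ X ∈ S, IsHypercube X) ∧
        ∃ Q : Set (Fin d → ℝ), IsBox Q ∧
          ∀ (h : ℕ) (t : RTree (Set (Fin d → ℝ)) h), IsRTree c₁ c₂ B S t →
            (N : ℝ) / (c₂ * B) ≤ cost Q t ∧
              C * ((N : ℝ) / B) ^ (1 - 1 / (d : ℝ)) < cost Q t) ∧
    (c₁ ≤ 1 → 1 ≤ c₂ → ∀ (B h : ℕ) (S : Finset (Set (Fin d → ℝ))), S.card = B ^ (h + 1) →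
      ∃ t : RTree (Set (Fin d → ℝ)) h, IsRTree c₁ c₂ B S t) := by
  refine ⟨?_, fun h1 h2 B h S hS => exists_rtree c₁ c₂ h1 h2 B h S hS⟩
  intro C hC B N hB hN
  obtain ⟨S, hS, hcube, Q, hQ, hcost⟩ := lower_bound (d := d) hd N
  refine ⟨S, hS, hcube, Q, hQ, fun h t ht => ?_⟩
  have h1 := hcost c₁ c₂ B h t ht
  have hB' : (0 : ℝ) < B := by exact_mod_cast hB
  have hcB : 0 < c₂ * B := mul_pos hc₂ hB'
  have h2 : (N : ℝ) / (c₂ * B) ≤ cost Q t := by
    rw [div_le_iff₀ hcB, mul_comm]
    exact h1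
  refine ⟨h2, lt_of_lt_of_le ?_ h2⟩
  have hd' : (0 : ℝ) < d := by exact_mod_cast hd
  set x : ℝ := (N : ℝ) / B with hx
  have hx1 : (C * c₂) ^ d < x := by
    rw [hx, lt_div_iff₀ hB']
    exact hN
  have hx0 : 0 < x := lt_of_le_of_lt (by positivity) hx1
  have hx2 : C * c₂ < x ^ (1 / (d : ℝ)) := by
    have h3 : ((C * c₂) ^ d) ^ (1 / (d : ℝ)) < x ^ (1 / (d : ℝ)) :=
      Real.rpow_lt_rpow (by positivity) hx1 (by positivity)
    have h4 : ((C * c₂) ^ d) ^ (1 / (d : ℝ)) = C * c₂ := by
      rw [one_div]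
      exact Real.pow_rpow_inv_natCast (by positivity) (by omega)
    rwa [h4] at h3
  have h5 : x = x ^ (1 / (d : ℝ)) * x ^ (1 - 1 / (d : ℝ)) := by
    rw [← Real.rpow_add hx0]
    simp
  have h6 : (N : ℝ) / (c₂ * B) = x / c₂ := by
    rw [hx, div_div, mul_comm]
  rw [h6, lt_div_iff₀ hc₂]
  have h7 : 0 < x ^ (1 - 1 / (d : ℝ)) := Real.rpow_pos_of_pos hx0 _
  calc C * x ^ (1 - 1 / (d : ℝ)) * c₂ = (C * c₂) * x ^ (1 - 1 / (d : ℝ)) := by ring
    _ < x ^ (1 / (d : ℝ)) * x ^ (1 - 1 / (d : ℝ)) := by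
        exact mul_lt_mul_of_pos_right hx2 h7
    _ = x := h5.symm

end Pool.Agent.Results.MP_4b5396_lc.AggregationLowerBound
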